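import Pool.Agent.Lib_helper32.BoxNet.Defs

/-!
# Finite checks for polyominoes
-/

namespace Pool.Agent.Lib_helper32.BoxNet

instance (c d : ℤ × ℤ) : Decidable (Adj c d) := by unfold Adj; infer_instance

theorem Adj.symm {c d : ℤ × ℤ} (h : Adj c d) : Adj d c := by
  unfold Adj at *
  rw [abs_sub_comm d.1 c.1, abs_sub_comm d.2 c.2]; exact h

/-- Every cell of the list except the last one is adjacent to a later one. -/
def chainCheck : List (ℤ × ℤ) → Bool
  | [] => true
  | [_] => true
  | c :: d :: L => decide (∃ e ∈ d :: L, Adj c e) && chainCheck (d :: L)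

theorem connected_of_chainCheck (P : Finset (ℤ × ℤ)) : ∀ L : List (ℤ × ℤ), chainCheck L = true →
    (∀ c ∈ L, c ∈ P) → ∀ c ∈ L, ∀ d ∈ L,
      Relation.ReflTransGen (fun x y => Adj x y ∧ x ∈ P ∧ y ∈ P) c d
  | [], _, _ => by simp
  | [a], _, _ => by
      intro c hc d hd
      simp only [List.mem_singleton] at hc hd
      subst hc; subst hd; exact Relation.ReflTransGen.refl
  | a :: b :: L, h, hP => by
      simp only [chainCheck, Bool.and_eq_true, decide_eq_true_eq] at h
      obtain ⟨⟨e, he, hae⟩, h2⟩ := h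
      have ih := connected_of_chainCheck P (b :: L) h2 (fun c hc => hP c (List.mem_cons_of_mem _ hc))
      have haP : a ∈ P := hP a (by simp)
      have heP : e ∈ P := hP e (List.mem_cons_of_mem _ he)
      have s1 : Relation.ReflTransGen (fun x y => Adj x y ∧ x ∈ P ∧ y ∈ P) a e :=
        Relation.ReflTransGen.single ⟨hae, haP, heP⟩
      have s2 : Relation.ReflTransGen (fun x y => Adj x y ∧ x ∈ P ∧ y ∈ P) e a :=
        Relation.ReflTransGen.single ⟨hae.symm, heP, haP⟩
      intro c hc d hd
      rcases List.mem_cons.1 hc with rfl | hc' <;> rcases List.mem_cons.1 hd with rfl | hd'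
      · exact Relation.ReflTransGen.refl
      · exact s1.trans (ih e he d hd')
      · exact (ih c hc' e he).trans s2
      · exact ih c hc' d hd'

/-- The grid edge joining two adjacent lattice points. -/
def joinEdge (a b : ℤ × ℤ) : GridEdge :=
  if a.1 = b.1 then (if a.2 < b.2 then ⟨a, true⟩ else ⟨b, true⟩)
  else (if a.1 < b.1 then ⟨a, false⟩ else ⟨b, false⟩)

theorem joins_iff {a b : ℤ × ℤ} (h : Adj a b) (e : GridEdge) :
    ((e.start = a ∧ e.stop = b) ∨ (e.start = b ∧ e.stop = a)) ↔ e = joinEdge a b := by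
  obtain ⟨a1, a2⟩ := a
  obtain ⟨b1, b2⟩ := b
  obtain ⟨⟨e1, e2⟩, v⟩ := e
  unfold Adj at h
  simp only at h
  have h4 : (a1 = b1 ∧ (a2 + 1 = b2 ∨ b2 + 1 = a2)) ∨ (a2 = b2 ∧ (a1 + 1 = b1 ∨ b1 + 1 = a1)) := by
    rcases abs_cases (a1 - b1) with ⟨h1, h1'⟩ | ⟨h1, h1'⟩ <;>
    rcases abs_cases (a2 - b2) with ⟨h2, h2'⟩ | ⟨h2, h2'⟩ <;>
    rw [h1, h2] at h <;> omega
  unfold joinEdge GridEdge.stop
  cases v
  · rcases h4 with ⟨rfl, h | h⟩ | ⟨rfl, h | h⟩
    · subst h
      simp
      omega
    · subst h
      simp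
      omega
    · subst h
      simp
      omega
    · subst h
      simp
      omega
  · rcases h4 with ⟨rfl, h | h⟩ | ⟨rfl, h | h⟩
    · subst h
      simp
      omega
    · subst h
      simp
      omega
    · subst h
      simp
      omega
    · subst h
      simp
      omega

/-- The four grid edges around a cell. -/
def cellEdges (c : ℤ × ℤ) : List GridEdge :=
  [⟨c, false⟩, ⟨c, true⟩, ⟨c + (0, 1), false⟩, ⟨c + (1, 0), true⟩]

theorem mem_cellEdges {P : Finset (ℤ × ℤ)} {e : GridEdge} (h : IsBoundary P e) :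
    ∃ c ∈ P, e ∈ cellEdges c := by
  obtain ⟨v, b⟩ := e
  rcases h with ⟨h, _⟩ | ⟨_, h⟩
  · refine ⟨_, h, ?_⟩
    cases b <;> simp [cellEdges]
  · refine ⟨_, h, ?_⟩
    cases b <;> simp [cellEdges, GridEdge.normal]

instance (P : Finset (ℤ × ℤ)) (e : GridEdge) : Decidable (IsBoundary P e) := by
  unfold IsBoundary; infer_instance

/-- List form of `IsBoundary`. -/
def BoundaryL (L : List (ℤ × ℤ)) (e : GridEdge) : Prop :=
  (e.start ∈ L ∧ e.start - e.normal ∉ L) ∨ (e.start ∉ L ∧ e.start - e.normal ∈ L)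

instance (L : List (ℤ × ℤ)) (e : GridEdge) : Decidable (BoundaryL L e) := by
  unfold BoundaryL; infer_instance

theorem isBoundary_iff {L : List (ℤ × ℤ)} {e : GridEdge} :
    IsBoundary L.toFinset e ↔ BoundaryL L e := by
  unfold IsBoundary BoundaryL
  simp only [List.mem_toFinset]

/-- Finite checks for a polyomino. -/
theorem isPolyomino_of_checks {L : List (ℤ × ℤ)} {G : List (ℤ × ℤ)} {E : List GridEdge}
    (hne : L ≠ [])
    (hchain : chainCheck L = true)
    (hG : 0 < G.length)
    (hnodup : G.Nodup)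
    (hadj : ∀ k < G.length, Adj (G.getD k 0) (G.getD ((k + 1) % G.length) 0))
    (hE : (List.range G.length).map
      (fun k => joinEdge (G.getD k 0) (G.getD ((k + 1) % G.length) 0)) = E)
    (hb1 : ∀ e ∈ E, BoundaryL L e)
    (hb2 : ∀ c ∈ L, ∀ e ∈ cellEdges c, BoundaryL L e → e ∈ E) :
    IsPolyomino L.toFinset where
  nonempty := by
    obtain ⟨a, L', rfl⟩ := List.exists_cons_of_ne_nil hne
    exact ⟨a, by simp⟩
  connected c hc d hd := connected_of_chainCheck _ L hchain (fun c hc => List.mem_toFinset.2 hc)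
    c (List.mem_toFinset.1 hc) d (List.mem_toFinset.1 hd)
  boundary := by
    have hmod : ∀ k < G.length, k % G.length = k := fun k hk => Nat.mod_eq_of_lt hk
    refine ⟨G.length, fun k => G.getD (k % G.length) 0, hG, by simp, ?_, ?_, ?_⟩
    · intro k hk l hl h
      simp only [hmod k hk, hmod l hl] at h
      rw [List.getD_eq_getElem _ _ hk, List.getD_eq_getElem _ _ hl] at h
      exact (List.Nodup.getElem_inj_iff hnodup).1 h
    · intro k hk
      simp only [hmod k hk]
      exact hadj k hk
    · intro e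
      have hj : ∀ k < G.length,
          ((e.start = G.getD (k % G.length) 0 ∧ e.stop = G.getD ((k + 1) % G.length) 0) ∨
            (e.start = G.getD ((k + 1) % G.length) 0 ∧ e.stop = G.getD (k % G.length) 0)) ↔
          e = joinEdge (G.getD k 0) (G.getD ((k + 1) % G.length) 0) := by
        intro k hk
        rw [hmod k hk]
        exact joins_iff (hadj k hk) e
      constructor
      · intro he
        obtain ⟨c, hc, hce⟩ := mem_cellEdges he
        have := hb2 c (List.mem_toFinset.1 hc) e hce (isBoundary_iff.1 he)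
        rw [← hE, List.mem_map] at this
        obtain ⟨k, hk, hke⟩ := this
        rw [List.mem_range] at hk
        exact ⟨k, hk, (hj k hk).2 hke.symm⟩
      · rintro ⟨k, hk, h⟩
        have := (hj k hk).1 h
        apply isBoundary_iff.2
        apply hb1
        rw [← hE, List.mem_map]
        exact ⟨k, List.mem_range.2 hk, this.symm⟩

end Pool.Agent.Lib_helper32.BoxNet
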