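import Pool.Agent.Lib_helper32.BoxNet.Interp
import Pool.Agent.Lib_helper32.BoxNet.Poly

/-!
# A common net of the boxes 1 x 11 x 3 and 5 x 7 x 1

The polyomino (94 cells) and the two vertex maps.
-/

namespace Pool.Agent.Lib_helper32.BoxNet

/-- The cells of the polyomino. -/
def netCells : List (ℤ × ℤ) :=
  [(26,1), (26,5), (26,2), (26,4), (25,2), (25,4), (24,2), (24,4), (21,0), (21,6), (23,2), (23,4),
   (21,1), (21,5), (23,3), (20,1), (20,5), (21,2), (21,4), (22,3), (19,1), (19,5), (20,2), (20,4),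
   (21,3), (18,1), (18,5), (19,2), (19,4), (20,3), (18,2), (18,4), (19,3), (13,0), (13,6), (15,0),
   (15,6), (18,3), (14,0), (14,6), (15,1), (15,5), (17,3), (14,1), (14,5), (15,2), (15,4), (16,3),
   (14,2), (14,4), (15,3), (14,3), (10,0), (10,6), (13,3), (9,0), (9,6), (10,1), (10,5), (12,3),
   (9,1), (9,5), (10,2), (10,4), (11,3), (9,2), (9,4), (10,3), (8,2), (8,4), (9,3), (7,2),
   (7,4), (8,3), (4,0), (4,6), (6,2), (6,4), (7,3), (4,1), (4,5), (6,3), (3,1), (3,5),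
   (4,2), (4,4), (5,3), (3,2), (3,4), (4,3), (3,3), (2,3), (1,3), (0,3)]

/-- The boundary polygon of the polyomino. -/
def netBoundary : List (ℤ × ℤ) :=
  [(0,3), (1,3), (2,3), (3,3), (3,2), (3,1), (4,1), (4,0), (5,0), (5,1), (5,2), (5,3),
   (6,3), (6,2), (7,2), (8,2), (9,2), (9,1), (9,0), (10,0), (11,0), (11,1), (11,2), (11,3),
   (12,3), (13,3), (14,3), (14,2), (14,1), (13,1), (13,0), (14,0), (15,0), (16,0), (16,1), (16,2),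
   (16,3), (17,3), (18,3), (18,2), (18,1), (19,1), (20,1), (21,1), (21,0), (22,0), (22,1), (22,2),
   (22,3), (23,3), (23,2), (24,2), (25,2), (26,2), (26,1), (27,1), (27,2), (27,3), (26,3), (25,3),
   (24,3), (24,4), (25,4), (26,4), (27,4), (27,5), (27,6), (26,6), (26,5), (25,5), (24,5), (23,5),
   (23,4), (22,4), (22,5), (22,6), (22,7), (21,7), (21,6), (20,6), (19,6), (18,6), (18,5), (18,4),
   (17,4), (16,4), (16,5), (16,6), (16,7), (15,7), (14,7), (13,7), (13,6), (14,6), (14,5), (14,4),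
   (13,4), (12,4), (11,4), (11,5), (11,6), (11,7), (10,7), (9,7), (9,6), (9,5), (8,5), (7,5),
   (6,5), (6,4), (5,4), (5,5), (5,6), (5,7), (4,7), (4,6), (3,6), (3,5), (3,4), (2,4),
   (1,4), (0,4)]

/-- The boundary edges of the polyomino. -/
def netEdges : List GridEdge :=
  [⟨(0,3),false⟩, ⟨(1,3),false⟩, ⟨(2,3),false⟩, ⟨(3,2),true⟩, ⟨(3,1),true⟩, ⟨(3,1),false⟩,
   ⟨(4,0),true⟩, ⟨(4,0),false⟩, ⟨(5,0),true⟩, ⟨(5,1),true⟩, ⟨(5,2),true⟩, ⟨(5,3),false⟩,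
   ⟨(6,2),true⟩, ⟨(6,2),false⟩, ⟨(7,2),false⟩, ⟨(8,2),false⟩, ⟨(9,1),true⟩, ⟨(9,0),true⟩,
   ⟨(9,0),false⟩, ⟨(10,0),false⟩, ⟨(11,0),true⟩, ⟨(11,1),true⟩, ⟨(11,2),true⟩, ⟨(11,3),false⟩,
   ⟨(12,3),false⟩, ⟨(13,3),false⟩, ⟨(14,2),true⟩, ⟨(14,1),true⟩, ⟨(13,1),false⟩, ⟨(13,0),true⟩,
   ⟨(13,0),false⟩, ⟨(14,0),false⟩, ⟨(15,0),false⟩, ⟨(16,0),true⟩, ⟨(16,1),true⟩, ⟨(16,2),true⟩,
   ⟨(16,3),false⟩, ⟨(17,3),false⟩, ⟨(18,2),true⟩, ⟨(18,1),true⟩, ⟨(18,1),false⟩, ⟨(19,1),false⟩,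
   ⟨(20,1),false⟩, ⟨(21,0),true⟩, ⟨(21,0),false⟩, ⟨(22,0),true⟩, ⟨(22,1),true⟩, ⟨(22,2),true⟩,
   ⟨(22,3),false⟩, ⟨(23,2),true⟩, ⟨(23,2),false⟩, ⟨(24,2),false⟩, ⟨(25,2),false⟩, ⟨(26,1),true⟩,
   ⟨(26,1),false⟩, ⟨(27,1),true⟩, ⟨(27,2),true⟩, ⟨(26,3),false⟩, ⟨(25,3),false⟩, ⟨(24,3),false⟩,
   ⟨(24,3),true⟩, ⟨(24,4),false⟩, ⟨(25,4),false⟩, ⟨(26,4),false⟩, ⟨(27,4),true⟩, ⟨(27,5),true⟩,
   ⟨(26,6),false⟩, ⟨(26,5),true⟩, ⟨(25,5),false⟩, ⟨(24,5),false⟩, ⟨(23,5),false⟩, ⟨(23,4),true⟩,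
   ⟨(22,4),false⟩, ⟨(22,4),true⟩, ⟨(22,5),true⟩, ⟨(22,6),true⟩, ⟨(21,7),false⟩, ⟨(21,6),true⟩,
   ⟨(20,6),false⟩, ⟨(19,6),false⟩, ⟨(18,6),false⟩, ⟨(18,5),true⟩, ⟨(18,4),true⟩, ⟨(17,4),false⟩,
   ⟨(16,4),false⟩, ⟨(16,4),true⟩, ⟨(16,5),true⟩, ⟨(16,6),true⟩, ⟨(15,7),false⟩, ⟨(14,7),false⟩,
   ⟨(13,7),false⟩, ⟨(13,6),true⟩, ⟨(13,6),false⟩, ⟨(14,5),true⟩, ⟨(14,4),true⟩, ⟨(13,4),false⟩,
   ⟨(12,4),false⟩, ⟨(11,4),false⟩, ⟨(11,4),true⟩, ⟨(11,5),true⟩, ⟨(11,6),true⟩, ⟨(10,7),false⟩,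
   ⟨(9,7),false⟩, ⟨(9,6),true⟩, ⟨(9,5),true⟩, ⟨(8,5),false⟩, ⟨(7,5),false⟩, ⟨(6,5),false⟩,
   ⟨(6,4),true⟩, ⟨(5,4),false⟩, ⟨(5,4),true⟩, ⟨(5,5),true⟩, ⟨(5,6),true⟩, ⟨(4,7),false⟩,
   ⟨(4,6),true⟩, ⟨(3,6),false⟩, ⟨(3,5),true⟩, ⟨(3,4),true⟩, ⟨(2,4),false⟩, ⟨(1,4),false⟩,
   ⟨(0,4),false⟩, ⟨(0,3),true⟩]

/-- Images of the lattice points in the folding onto the box 1 x 11 x 3. -/
def tableF : List (List (ℤ × ℤ × ℤ)) :=
  [
   [(0,0,0), (0,0,0), (0,0,0), (0,0,0), (1,9,1), (1,8,1), (0,0,0), (0,0,0),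
   (0,0,0), (1,4,1), (1,3,1), (1,2,1), (0,0,0), (1,0,1), (0,0,1), (0,1,1),
   (0,2,1), (0,0,0), (0,0,0), (0,0,0), (0,0,0), (0,7,1), (0,8,1), (0,0,0),
   (0,0,0), (0,0,0), (0,0,0), (0,0,0)],
   [(0,0,0), (0,0,0), (0,0,0), (1,10,0), (1,9,0), (1,8,0), (0,0,0), (0,0,0),
   (0,0,0), (1,4,0), (1,3,0), (1,2,0), (0,0,0), (1,0,0), (0,0,0), (0,1,0),
   (0,2,0), (0,0,0), (0,4,0), (0,5,0), (0,6,0), (0,7,0), (0,8,0), (0,0,0),
   (0,0,0), (0,0,0), (1,11,0), (1,10,0)],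
   [(0,0,0), (0,0,0), (0,0,0), (0,10,0), (0,9,0), (0,8,0), (0,7,0), (0,6,0),
   (0,5,0), (0,4,0), (0,3,0), (0,2,0), (0,0,0), (0,0,0), (1,0,0), (1,1,0),
   (1,2,0), (0,0,0), (1,4,0), (1,5,0), (1,6,0), (1,7,0), (1,8,0), (1,9,0),
   (1,10,0), (1,11,0), (0,11,0), (0,10,0)],
   [(1,10,1), (1,11,1), (0,11,1), (0,10,1), (0,9,1), (0,8,1), (0,7,1), (0,6,1),
   (0,5,1), (0,4,1), (0,3,1), (0,2,1), (0,1,1), (0,0,1), (1,0,1), (1,1,1),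
   (1,2,1), (1,3,1), (1,4,1), (1,5,1), (1,6,1), (1,7,1), (1,8,1), (1,9,1),
   (1,10,1), (1,11,1), (0,11,1), (0,10,1)],
   [(1,10,2), (1,11,2), (0,11,2), (0,10,2), (0,9,2), (0,8,2), (0,7,2), (0,6,2),
   (0,5,2), (0,4,2), (0,3,2), (0,2,2), (0,1,2), (0,0,2), (1,0,2), (1,1,2),
   (1,2,2), (1,3,2), (1,4,2), (1,5,2), (1,6,2), (1,7,2), (1,8,2), (1,9,2),
   (1,10,2), (1,11,2), (0,11,2), (0,10,2)],
   [(0,0,0), (0,0,0), (0,0,0), (0,10,3), (0,9,3), (0,8,3), (0,7,3), (0,6,3),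
   (0,5,3), (0,4,3), (0,3,3), (0,2,3), (0,0,0), (0,0,0), (1,0,3), (1,1,3),
   (1,2,3), (0,0,0), (1,4,3), (1,5,3), (1,6,3), (1,7,3), (1,8,3), (1,9,3),
   (1,10,3), (1,11,3), (0,11,3), (0,10,3)],
   [(0,0,0), (0,0,0), (0,0,0), (1,10,3), (1,9,3), (1,8,3), (0,0,0), (0,0,0),
   (0,0,0), (1,4,3), (1,3,3), (1,2,3), (0,0,0), (1,0,3), (0,0,3), (0,1,3),
   (0,2,3), (0,0,0), (0,4,3), (0,5,3), (0,6,3), (0,7,3), (0,8,3), (0,0,0),
   (0,0,0), (0,0,0), (1,11,3), (1,10,3)],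
   [(0,0,0), (0,0,0), (0,0,0), (0,0,0), (1,9,2), (1,8,2), (0,0,0), (0,0,0),
   (0,0,0), (1,4,2), (1,3,2), (1,2,2), (0,0,0), (1,0,2), (0,0,2), (0,1,2),
   (0,2,2), (0,0,0), (0,0,0), (0,0,0), (0,0,0), (0,7,2), (0,8,2), (0,0,0),
   (0,0,0), (0,0,0), (0,0,0), (0,0,0)]]

/-- Images of the lattice points in the folding onto the box 5 x 7 x 1. -/
def tableG : List (List (ℤ × ℤ × ℤ)) :=
  [
   [(0,0,0), (0,0,0), (0,0,0), (0,0,0), (2,5,0), (2,6,0), (0,0,0), (0,0,0),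
   (0,0,0), (2,4,0), (1,4,0), (0,4,0), (0,0,0), (3,5,0), (3,4,0), (3,3,0),
   (3,2,0), (0,0,0), (0,0,0), (0,0,0), (0,0,0), (3,3,0), (4,3,0), (0,0,0),
   (0,0,0), (0,0,0), (0,0,0), (0,0,0)],
   [(0,0,0), (0,0,0), (0,0,0), (3,4,0), (3,5,0), (3,6,0), (0,0,0), (0,0,0),
   (0,0,0), (2,5,0), (1,5,0), (0,5,0), (0,0,0), (2,5,0), (2,4,0), (2,3,0),
   (2,2,0), (0,0,0), (0,2,0), (1,2,0), (2,2,0), (3,2,0), (4,2,0), (0,0,0),
   (0,0,0), (0,0,0), (3,3,0), (3,4,0)],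
   [(0,0,0), (0,0,0), (0,0,0), (4,4,0), (4,5,0), (4,6,0), (5,6,0), (4,6,0),
   (3,6,0), (2,6,0), (1,6,0), (0,6,0), (0,0,0), (0,0,0), (1,4,0), (1,3,0),
   (1,2,0), (0,0,0), (0,1,0), (1,1,0), (2,1,0), (3,1,0), (4,1,0), (4,0,0),
   (4,1,0), (4,2,0), (4,3,0), (4,4,0)],
   [(5,1,0), (5,2,0), (5,3,0), (5,4,0), (5,5,0), (5,6,0), (5,7,0), (4,7,0),
   (3,7,0), (2,7,0), (1,7,0), (0,7,0), (0,6,0), (0,5,0), (0,4,0), (0,3,0),
   (0,2,0), (0,1,0), (0,0,0), (1,0,0), (2,0,0), (3,0,0), (4,0,0), (5,0,0),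
   (5,1,0), (5,2,0), (5,3,0), (5,4,0)],
   [(5,1,1), (5,2,1), (5,3,1), (5,4,1), (5,5,1), (5,6,1), (5,7,1), (4,7,1),
   (3,7,1), (2,7,1), (1,7,1), (0,7,1), (0,6,1), (0,5,1), (0,4,1), (0,3,1),
   (0,2,1), (0,1,1), (0,0,1), (1,0,1), (2,0,1), (3,0,1), (4,0,1), (5,0,1),
   (5,1,1), (5,2,1), (5,3,1), (5,4,1)],
   [(0,0,0), (0,0,0), (0,0,0), (4,4,1), (4,5,1), (4,6,1), (5,6,1), (4,6,1),
   (3,6,1), (2,6,1), (1,6,1), (0,6,1), (0,0,0), (0,0,0), (1,4,1), (1,3,1),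
   (1,2,1), (0,0,0), (0,1,1), (1,1,1), (2,1,1), (3,1,1), (4,1,1), (4,0,1),
   (4,1,1), (4,2,1), (4,3,1), (4,4,1)],
   [(0,0,0), (0,0,0), (0,0,0), (3,4,1), (3,5,1), (3,6,1), (0,0,0), (0,0,0),
   (0,0,0), (2,5,1), (1,5,1), (0,5,1), (0,0,0), (2,5,1), (2,4,1), (2,3,1),
   (2,2,1), (0,0,0), (0,2,1), (1,2,1), (2,2,1), (3,2,1), (4,2,1), (0,0,0),
   (0,0,0), (0,0,0), (3,3,1), (3,4,1)],
   [(0,0,0), (0,0,0), (0,0,0), (0,0,0), (2,5,1), (2,6,1), (0,0,0), (0,0,0),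
   (0,0,0), (2,4,1), (1,4,1), (0,4,1), (0,0,0), (3,5,1), (3,4,1), (3,3,1),
   (3,2,1), (0,0,0), (0,0,0), (0,0,0), (0,0,0), (3,3,1), (4,3,1), (0,0,0),
   (0,0,0), (0,0,0), (0,0,0), (0,0,0)]]

/-- Look up a vertex map in a table. -/
def look (T : List (List (ℤ × ℤ × ℤ))) (p : ℤ × ℤ) : Fin 3 → ℤ :=
  let t := (T.getD p.2.toNat []).getD p.1.toNat (0, 0, 0)
  ![t.1, t.2.1, t.2.2]

/-- The side lengths of the first box. -/
def sidesF : Fin 3 → ℕ := ![1, 11, 3]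

/-- The side lengths of the second box. -/
def sidesG : Fin 3 → ℕ := ![5, 7, 1]

theorem netEdges_eq : (List.range netBoundary.length).map
    (fun k => joinEdge (netBoundary.getD k 0) (netBoundary.getD ((k + 1) % netBoundary.length) 0))
      = netEdges := by decide +kernel

theorem net_isPolyomino : IsPolyomino netCells.toFinset :=
  isPolyomino_of_checks (G := netBoundary) (E := netEdges) (by decide) (by decide +kernel)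
    (by decide) (by decide +kernel) (by decide +kernel) netEdges_eq (by decide +kernel)
    (by decide +kernel)

theorem goodF : ∀ c ∈ netCells, GoodCell (look tableF) sidesF c := by decide +kernel

theorem goodG : ∀ c ∈ netCells, GoodCell (look tableG) sidesG c := by decide +kernel

theorem coversF : CoversSquares (look tableF) sidesF netCells := by decide +kernel

theorem coversG : CoversSquares (look tableG) sidesG netCells := by decide +kernel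

theorem injF : ∀ c ∈ netCells, ∀ d ∈ netCells, c ≠ d →
    ctr (look tableF) c ≠ ctr (look tableF) d := by decide +kernel

theorem injG : ∀ c ∈ netCells, ∀ d ∈ netCells, c ≠ d →
    ctr (look tableG) c ≠ ctr (look tableG) d := by decide +kernel

theorem angF : ∀ v ∈ netCells, ∀ n ∈ [((1, 0) : ℤ × ℤ), (0, 1)], v - n ∈ netCells →
    AngleOK (look tableF) v n := by decide +kernel

theorem angG : ∀ v ∈ netCells, ∀ n ∈ [((1, 0) : ℤ × ℤ), (0, 1)], v - n ∈ netCells →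
    AngleOK (look tableG) v n := by decide +kernel

theorem foldingF : IsFolding netCells.toFinset sidesF (interp (look tableF)) :=
  isFolding_of_checks (by decide) goodF coversF injF angF

theorem foldingG : IsFolding netCells.toFinset sidesG (interp (look tableG)) :=
  isFolding_of_checks (by decide) goodG coversG injG angG

/-- Integer form of `IsCrease`. -/
def CreaseL (T : List (List (ℤ × ℤ × ℤ))) (e : GridEdge) : Prop :=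
  (e.start ∈ netCells ∧ e.start - e.normal ∈ netCells) ∧ Bent (look T) e.start e.normal

instance (T : List (List (ℤ × ℤ × ℤ))) (e : GridEdge) : Decidable (CreaseL T e) := by
  unfold CreaseL; infer_instance

theorem isCrease_iff {T : List (List (ℤ × ℤ × ℤ))} {e : GridEdge} :
    IsCrease netCells.toFinset (interp (look T)) e ↔ CreaseL T e := by
  rw [isCrease_interp]
  unfold IsInterior CreaseL
  simp only [List.mem_toFinset]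

theorem indep_check : ∀ v ∈ netCells, ∀ b ∈ [true, false],
    ¬ (CreaseL tableF ⟨v, b⟩ ∧ CreaseL tableG ⟨v, b⟩) := by decide +kernel

theorem cross_check : ∀ v ∈ netCells,
    ¬ ((CreaseL tableF ⟨v, true⟩ ∧ CreaseL tableF ⟨v - (0, 1), true⟩ ∧
      CreaseL tableG ⟨v, false⟩ ∧ CreaseL tableG ⟨v - (1, 0), false⟩) ∨
    (CreaseL tableG ⟨v, true⟩ ∧ CreaseL tableG ⟨v - (0, 1), true⟩ ∧
      CreaseL tableF ⟨v, false⟩ ∧ CreaseL tableF ⟨v - (1, 0), false⟩)) := by decide +kernel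

theorem independent (e : GridEdge) :
    ¬ (IsCrease netCells.toFinset (interp (look tableF)) e ∧
      IsCrease netCells.toFinset (interp (look tableG)) e) := by
  rw [isCrease_iff, isCrease_iff]
  rintro ⟨h1, h2⟩
  obtain ⟨v, b⟩ := e
  exact indep_check v h1.1.1 b (by cases b <;> simp) ⟨h1, h2⟩

theorem notCrossing (v : ℤ × ℤ) :
    ¬ Crosses netCells.toFinset (interp (look tableF)) (interp (look tableG)) v := by
  unfold Crosses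
  simp only [isCrease_iff]
  intro h
  have hv : v ∈ netCells := by
    rcases h with ⟨h, _⟩ | ⟨h, _⟩ <;> exact h.1.1
  exact cross_check v hv h

end Pool.Agent.Lib_helper32.BoxNet
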