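import Mathlib

/-!
# Polyominoes, boxes and foldings

Definitions for the problem on common nets of two boxes.  Space is `Fin 3 → ℝ`, the plane is
`ℝ × ℝ`, and a unit square (cell) of the integer grid of the plane is named by its lower left
corner in `ℤ × ℤ`.
-/

namespace Pool.Agent.Lib_helper32.BoxNet

/-- The closed unit square with lower left corner `c`. -/
def cell (c : ℤ × ℤ) : Set (ℝ × ℝ) :=
  {p | (c.1 : ℝ) ≤ p.1 ∧ p.1 ≤ c.1 + 1 ∧ (c.2 : ℝ) ≤ p.2 ∧ p.2 ≤ c.2 + 1}

/-- The open unit square with lower left corner `c`. -/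
def openCell (c : ℤ × ℤ) : Set (ℝ × ℝ) :=
  {p | (c.1 : ℝ) < p.1 ∧ p.1 < c.1 + 1 ∧ (c.2 : ℝ) < p.2 ∧ p.2 < c.2 + 1}

/-- The closed region of the plane formed by the cells of `P`. -/
def region (P : Finset (ℤ × ℤ)) : Set (ℝ × ℝ) :=
  {p | ∃ c ∈ P, p ∈ cell c}

/-- Two lattice points (or two cells) differ by a horizontal or vertical unit vector. -/
def Adj (c d : ℤ × ℤ) : Prop :=
  |c.1 - d.1| + |c.2 - d.2| = 1

/-- A unit edge of the grid: the segment from `start` one unit up (`vertical = true`) or one unit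
to the right (`vertical = false`). -/
structure GridEdge where
  /-- the lower (or left) end point -/
  start : ℤ × ℤ
  /-- the direction of the edge -/
  vertical : Bool
deriving DecidableEq

/-- The unit vector perpendicular to the edge: to the right for a vertical edge, up for a
horizontal one. -/
def GridEdge.normal (e : GridEdge) : ℤ × ℤ := if e.vertical then (1, 0) else (0, 1)

/-- The other end point of the edge. -/
def GridEdge.stop (e : GridEdge) : ℤ × ℤ :=
  if e.vertical then (e.start.1, e.start.2 + 1) else (e.start.1 + 1, e.start.2)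

/-- The edge is interior to `P`: both cells along it, the one with lower left corner `start` and
the one with lower left corner `start - normal`, belong to `P`. -/
def IsInterior (P : Finset (ℤ × ℤ)) (e : GridEdge) : Prop :=
  e.start ∈ P ∧ e.start - e.normal ∈ P

/-- The edge is on the boundary of `P`: exactly one of the two cells along it belongs to `P`. -/
def IsBoundary (P : Finset (ℤ × ℤ)) (e : GridEdge) : Prop :=
  (e.start ∈ P ∧ e.start - e.normal ∉ P) ∨ (e.start ∉ P ∧ e.start - e.normal ∈ P)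

/-- `P` is (the set of cells of) a polyomino: it is nonempty, any two cells are joined by a chain
of cells of `P` sharing edges, and its boundary edges are the edges of one simple closed lattice
polygon `γ 0, γ 1, ..., γ n = γ 0`. -/
structure IsPolyomino (P : Finset (ℤ × ℤ)) : Prop where
  nonempty : P.Nonempty
  connected : ∀ c ∈ P, ∀ d ∈ P, Relation.ReflTransGen (fun x y => Adj x y ∧ x ∈ P ∧ y ∈ P) c d
  boundary : ∃ (n : ℕ) (γ : ℕ → ℤ × ℤ), 0 < n ∧ γ n = γ 0 ∧
    (∀ k < n, ∀ l < n, γ k = γ l → k = l) ∧ (∀ k < n, Adj (γ k) (γ (k + 1))) ∧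
    ∀ e : GridEdge, IsBoundary P e ↔ ∃ k < n,
      (e.start = γ k ∧ e.stop = γ (k + 1)) ∨ (e.start = γ (k + 1) ∧ e.stop = γ k)

/-- The surface of the box `[0, s 0] × [0, s 1] × [0, s 2]`. -/
def boxSurface (s : Fin 3 → ℕ) : Set (Fin 3 → ℝ) :=
  {q | (∀ m, 0 ≤ q m ∧ q m ≤ s m) ∧ ∃ m, q m = 0 ∨ q m = s m}

/-- A lattice point as a point of the plane. -/
def toPlane (v : ℤ × ℤ) : ℝ × ℝ := ((v.1 : ℝ), (v.2 : ℝ))

/-- The image of the unit vector `e.normal` in the cell before the edge `e`
(the cell with lower left corner `start - normal`). -/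
noncomputable def dirBefore (F : ℝ × ℝ → Fin 3 → ℝ) (e : GridEdge) : Fin 3 → ℝ :=
  F (toPlane e.start) - F (toPlane (e.start - e.normal))

/-- The image of the unit vector `e.normal` in the cell after the edge `e`
(the cell with lower left corner `start`). -/
noncomputable def dirAfter (F : ℝ × ℝ → Fin 3 → ℝ) (e : GridEdge) : Fin 3 → ℝ :=
  F (toPlane (e.start + e.normal)) - F (toPlane e.start)

/-- `F` folds the polyomino `P` onto the box with side lengths `s`: every cell is mapped by a rigid
motion (so `P` is only folded along grid edges), along every interior edge the fold angle is zero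
or a right angle, the image is the whole surface of the box, and the images of different cells do
not overlap. -/
structure IsFolding (P : Finset (ℤ × ℤ)) (s : Fin 3 → ℕ) (F : ℝ × ℝ → Fin 3 → ℝ) : Prop where
  rigid : ∀ c ∈ P, ∃ o u v : Fin 3 → ℝ, u ⬝ᵥ u = 1 ∧ v ⬝ᵥ v = 1 ∧ u ⬝ᵥ v = 0 ∧
    ∀ p ∈ cell c, F p = o + (p.1 - c.1) • u + (p.2 - c.2) • v
  angle : ∀ e, IsInterior P e → dirAfter F e = dirBefore F e ∨ dirAfter F e ⬝ᵥ dirBefore F e = 0
  maps : ∀ p ∈ region P, F p ∈ boxSurface s
  covers : ∀ q ∈ boxSurface s, ∃ p ∈ region P, F p = q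
  noOverlap : ∀ c ∈ P, ∀ d ∈ P, c ≠ d → ∀ p ∈ openCell c, ∀ p' ∈ openCell d, F p ≠ F p'

/-- The edge `e` is a crease of the folding `F` of `P`: it is interior and the fold angle along it
is not zero. -/
def IsCrease (P : Finset (ℤ × ℤ)) (F : ℝ × ℝ → Fin 3 → ℝ) (e : GridEdge) : Prop :=
  IsInterior P e ∧ dirAfter F e ≠ dirBefore F e

/-- The creases of `F` and of `G` cross at the lattice point `v`: both vertical unit edges at `v`
are creases of one folding and both horizontal unit edges at `v` are creases of the other. -/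
def Crosses (P : Finset (ℤ × ℤ)) (F G : ℝ × ℝ → Fin 3 → ℝ) (v : ℤ × ℤ) : Prop :=
  (IsCrease P F ⟨v, true⟩ ∧ IsCrease P F ⟨v - (0, 1), true⟩ ∧
    IsCrease P G ⟨v, false⟩ ∧ IsCrease P G ⟨v - (1, 0), false⟩) ∨
  (IsCrease P G ⟨v, true⟩ ∧ IsCrease P G ⟨v - (0, 1), true⟩ ∧
    IsCrease P F ⟨v, false⟩ ∧ IsCrease P F ⟨v - (1, 0), false⟩)

end Pool.Agent.Lib_helper32.BoxNet
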