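import Pool.Agent.Lib_helper32.BoxNet.Defs

/-!
# Foldings from integer vertex maps

A map `φ` from lattice points of the plane to lattice points of space is extended to the plane by
bilinear interpolation on every cell.  Finite conditions on `φ` make the extension a folding.
-/

namespace Pool.Agent.Lib_helper32.BoxNet

/-- Bilinear interpolation of a vertex map. -/
noncomputable def interp (φ : ℤ × ℤ → Fin 3 → ℤ) (p : ℝ × ℝ) : Fin 3 → ℝ := fun m =>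
  (1 - Int.fract p.1) * (1 - Int.fract p.2) * (φ (⌊p.1⌋, ⌊p.2⌋) m : ℝ)
  + Int.fract p.1 * (1 - Int.fract p.2) * (φ (⌊p.1⌋ + 1, ⌊p.2⌋) m : ℝ)
  + (1 - Int.fract p.1) * Int.fract p.2 * (φ (⌊p.1⌋, ⌊p.2⌋ + 1) m : ℝ)
  + Int.fract p.1 * Int.fract p.2 * (φ (⌊p.1⌋ + 1, ⌊p.2⌋ + 1) m : ℝ)

theorem floor_cases {x : ℝ} {i : ℤ} (h1 : (i : ℝ) ≤ x) (h2 : x ≤ i + 1) :
    (⌊x⌋ = i ∧ Int.fract x = x - i) ∨ (⌊x⌋ = i + 1 ∧ Int.fract x = 0 ∧ x = i + 1) := by
  rcases lt_or_eq_of_le h2 with h | h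
  · left
    have : ⌊x⌋ = i := by
      rw [Int.floor_eq_iff]; exact ⟨h1, h⟩
    refine ⟨this, ?_⟩
    rw [Int.fract, this]
  · right
    have hx : x = ((i + 1 : ℤ) : ℝ) := by push_cast; exact h
    refine ⟨?_, ?_, h⟩
    · rw [hx, Int.floor_intCast]
    · rw [hx, Int.fract_intCast]

/-- On a closed cell the interpolation is given by the bilinear formula of that cell. -/
theorem interp_cell (φ : ℤ × ℤ → Fin 3 → ℤ) {c : ℤ × ℤ} {p : ℝ × ℝ} (hp : p ∈ cell c)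
    (m : Fin 3) :
    interp φ p m =
      (1 - (p.1 - c.1)) * (1 - (p.2 - c.2)) * (φ (c.1, c.2) m : ℝ)
      + (p.1 - c.1) * (1 - (p.2 - c.2)) * (φ (c.1 + 1, c.2) m : ℝ)
      + (1 - (p.1 - c.1)) * (p.2 - c.2) * (φ (c.1, c.2 + 1) m : ℝ)
      + (p.1 - c.1) * (p.2 - c.2) * (φ (c.1 + 1, c.2 + 1) m : ℝ) := by
  obtain ⟨h1, h2, h3, h4⟩ := hp
  rcases floor_cases h1 h2 with ⟨hf, hg⟩ | ⟨hf, hg, hx⟩ <;>
  rcases floor_cases h3 h4 with ⟨hf', hg'⟩ | ⟨hf', hg', hy⟩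
  · simp only [interp, hf, hg, hf', hg']
  · simp only [interp, hf, hg, hf', hg']
    rw [hy]; ring
  · simp only [interp, hf, hg, hf', hg']
    rw [hx]; ring
  · simp only [interp, hf, hg, hf', hg']
    rw [hx, hy]; ring

theorem interp_lattice (φ : ℤ × ℤ → Fin 3 → ℤ) (v : ℤ × ℤ) :
    interp φ (toPlane v) = fun m => (φ v m : ℝ) := by
  funext m
  simp [interp, toPlane]

/-- The integer vector is plus or minus a coordinate vector. -/
def IsUnitVec (u : Fin 3 → ℤ) : Prop :=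
  ∃ k, (u k = 1 ∨ u k = -1) ∧ ∀ m, m ≠ k → u m = 0

instance (u : Fin 3 → ℤ) : Decidable (IsUnitVec u) := by unfold IsUnitVec; infer_instance

/-- Images of the two unit vectors in the cell `c`. -/
def dirU (φ : ℤ × ℤ → Fin 3 → ℤ) (c : ℤ × ℤ) : Fin 3 → ℤ := fun m => φ (c.1 + 1, c.2) m - φ c m

/-- Images of the two unit vectors in the cell `c`. -/
def dirV (φ : ℤ × ℤ → Fin 3 → ℤ) (c : ℤ × ℤ) : Fin 3 → ℤ := fun m => φ (c.1, c.2 + 1) m - φ c m

/-- Twice the centre of the image of the cell `c`. -/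
def ctr (φ : ℤ × ℤ → Fin 3 → ℤ) (c : ℤ × ℤ) : Fin 3 → ℤ := fun m =>
  φ (c.1 + 1, c.2) m + φ (c.1, c.2 + 1) m

/-- The finite condition on one cell. -/
def GoodCell (φ : ℤ × ℤ → Fin 3 → ℤ) (s : Fin 3 → ℕ) (c : ℤ × ℤ) : Prop :=
  IsUnitVec (dirU φ c) ∧ IsUnitVec (dirV φ c) ∧ (∀ m, dirU φ c m = 0 ∨ dirV φ c m = 0) ∧
  (∀ m, φ (c.1 + 1, c.2 + 1) m = φ c m + dirU φ c m + dirV φ c m) ∧
  (∀ m, 0 ≤ φ c m ∧ φ c m ≤ s m ∧ 0 ≤ φ (c.1 + 1, c.2) m ∧ φ (c.1 + 1, c.2) m ≤ s m ∧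
    0 ≤ φ (c.1, c.2 + 1) m ∧ φ (c.1, c.2 + 1) m ≤ s m ∧
    0 ≤ φ (c.1 + 1, c.2 + 1) m ∧ φ (c.1 + 1, c.2 + 1) m ≤ s m) ∧
  ∃ m, dirU φ c m = 0 ∧ dirV φ c m = 0 ∧ (φ c m = 0 ∨ φ c m = s m)

instance (φ : ℤ × ℤ → Fin 3 → ℤ) (s : Fin 3 → ℕ) (c : ℤ × ℤ) : Decidable (GoodCell φ s c) := by
  unfold GoodCell; infer_instance

theorem interp_good {φ : ℤ × ℤ → Fin 3 → ℤ} {s : Fin 3 → ℕ} {c : ℤ × ℤ} (hc : GoodCell φ s c)
    {p : ℝ × ℝ} (hp : p ∈ cell c) (m : Fin 3) :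
    interp φ p m = φ c m + (p.1 - c.1) * dirU φ c m + (p.2 - c.2) * dirV φ c m := by
  rw [interp_cell φ hp m]
  have h4 := hc.2.2.2.1 m
  have e1 : (φ (c.1 + 1, c.2 + 1) m : ℝ) = φ c m + dirU φ c m + dirV φ c m := by exact_mod_cast h4
  have e2 : (φ (c.1 + 1, c.2) m : ℝ) = φ c m + dirU φ c m := by simp [dirU]
  have e3 : (φ (c.1, c.2 + 1) m : ℝ) = φ c m + dirV φ c m := by simp [dirV]
  rw [e1, e2, e3]
  ring

theorem dot_unit {u : Fin 3 → ℤ} (h : IsUnitVec u) :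
    (fun m => (u m : ℝ)) ⬝ᵥ (fun m => (u m : ℝ)) = 1 := by
  obtain ⟨k, hk, h0⟩ := h
  have : (u k : ℝ) * u k = 1 := by rcases hk with h | h <;> rw [h] <;> norm_num
  simp only [dotProduct]
  rw [Finset.sum_eq_single k]
  · exact this
  · intro m _ hm
    rw [h0 m hm]; simp
  · intro h; exact absurd (Finset.mem_univ k) h

theorem dot_perp {u v : Fin 3 → ℤ} (h : ∀ m, u m = 0 ∨ v m = 0) :
    (fun m => (u m : ℝ)) ⬝ᵥ (fun m => (v m : ℝ)) = 0 := by
  simp only [dotProduct]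
  apply Finset.sum_eq_zero
  intro m _
  rcases h m with h | h <;> rw [h] <;> simp

theorem rigid_of_good {φ : ℤ × ℤ → Fin 3 → ℤ} {s : Fin 3 → ℕ} {c : ℤ × ℤ}
    (hc : GoodCell φ s c) : ∃ o u v : Fin 3 → ℝ, u ⬝ᵥ u = 1 ∧ v ⬝ᵥ v = 1 ∧ u ⬝ᵥ v = 0 ∧
    ∀ p ∈ cell c, interp φ p = o + (p.1 - c.1) • u + (p.2 - c.2) • v := by
  refine ⟨fun m => φ c m, fun m => dirU φ c m, fun m => dirV φ c m, dot_unit hc.1,
    dot_unit hc.2.1, dot_perp hc.2.2.1, ?_⟩
  intro p hp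
  funext m
  rw [interp_good hc hp m]
  simp [Pi.add_apply, Pi.smul_apply, smul_eq_mul]

theorem maps_of_good {φ : ℤ × ℤ → Fin 3 → ℤ} {s : Fin 3 → ℕ} {c : ℤ × ℤ}
    (hc : GoodCell φ s c) {p : ℝ × ℝ} (hp : p ∈ cell c) : interp φ p ∈ boxSurface s := by
  obtain ⟨h1, h2, h3, h4⟩ := id hp
  constructor
  · intro m
    rw [interp_cell φ hp m]
    obtain ⟨a1, a2, a3, a4, a5, a6, a7, a8⟩ := hc.2.2.2.2.1 m
    have b1 : (0:ℝ) ≤ φ (c.1, c.2) m := by exact_mod_cast a1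
    have b2 : (φ (c.1, c.2) m : ℝ) ≤ s m := by exact_mod_cast a2
    have b3 : (0:ℝ) ≤ φ (c.1 + 1, c.2) m := by exact_mod_cast a3
    have b4 : (φ (c.1 + 1, c.2) m : ℝ) ≤ s m := by exact_mod_cast a4
    have b5 : (0:ℝ) ≤ φ (c.1, c.2 + 1) m := by exact_mod_cast a5
    have b6 : (φ (c.1, c.2 + 1) m : ℝ) ≤ s m := by exact_mod_cast a6
    have b7 : (0:ℝ) ≤ φ (c.1 + 1, c.2 + 1) m := by exact_mod_cast a7
    have b8 : (φ (c.1 + 1, c.2 + 1) m : ℝ) ≤ s m := by exact_mod_cast a8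
    set x := p.1 - c.1 with hx
    set y := p.2 - c.2 with hy
    have x0 : 0 ≤ x := by rw [hx]; linarith
    have x1 : 0 ≤ 1 - x := by rw [hx]; linarith
    have y0 : 0 ≤ y := by rw [hy]; linarith
    have y1 : 0 ≤ 1 - y := by rw [hy]; linarith
    constructor
    · positivity
    · have w1 := mul_le_mul_of_nonneg_left b2 (mul_nonneg x1 y1)
      have w2 := mul_le_mul_of_nonneg_left b4 (mul_nonneg x0 y1)
      have w3 := mul_le_mul_of_nonneg_left b6 (mul_nonneg x1 y0)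
      have w4 := mul_le_mul_of_nonneg_left b8 (mul_nonneg x0 y0)
      have : (1 - x) * (1 - y) * (s m : ℝ) + x * (1 - y) * s m + (1 - x) * y * s m + x * y * s m
        = s m := by ring
      linarith
  · obtain ⟨m, hu, hv, h⟩ := hc.2.2.2.2.2
    refine ⟨m, ?_⟩
    rw [interp_good hc hp m, hu, hv]
    rcases h with h | h
    · left; rw [h]; simp
    · right; rw [h]; simp

theorem floor_add_ceil {A u v : ℤ} (hu : u = 0 ∨ u = 1 ∨ u = -1) (hv : v = 0 ∨ v = 1 ∨ v = -1)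
    (h : u = 0 ∨ v = 0) {x y : ℝ} (x0 : 0 < x) (x1 : x < 1) (y0 : 0 < y) (y1 : y < 1) :
    ⌊(A : ℝ) + x * u + y * v⌋ + ⌈(A : ℝ) + x * u + y * v⌉ = 2 * A + u + v := by
  have key : ∀ w : ℝ, 0 < w → w < 1 → ⌊(A:ℝ) + w⌋ + ⌈(A:ℝ) + w⌉ = 2 * A + 1 := by
    intro w h0 h1
    have e1 : ⌊(A:ℝ) + w⌋ = A := by
      rw [Int.floor_eq_iff]; constructor <;> linarith
    have e2 : ⌈(A:ℝ) + w⌉ = A + 1 := by
      rw [Int.ceil_eq_iff]; push_cast; constructor <;> linarith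
    rw [e1, e2]; ring
  have key' : ∀ w : ℝ, 0 < w → w < 1 → ⌊(A:ℝ) - w⌋ + ⌈(A:ℝ) - w⌉ = 2 * A - 1 := by
    intro w h0 h1
    have e1 : ⌊(A:ℝ) - w⌋ = A - 1 := by
      rw [Int.floor_eq_iff]; push_cast; constructor <;> linarith
    have e2 : ⌈(A:ℝ) - w⌉ = A := by
      rw [Int.ceil_eq_iff]; constructor <;> linarith
    rw [e1, e2]; ring
  rcases h with h | h
  · subst h
    rcases hv with h | h | h <;> subst h
    · simp; ring
    · have := key y y0 y1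
      simpa using this
    · have := key' y y0 y1
      simpa [sub_eq_add_neg] using this
  · subst h
    rcases hu with h | h | h <;> subst h
    · simp; ring
    · have := key x x0 x1
      simpa using this
    · have := key' x x0 x1
      simpa [sub_eq_add_neg] using this

theorem IsUnitVec.cases {u : Fin 3 → ℤ} (h : IsUnitVec u) (m : Fin 3) :
    u m = 0 ∨ u m = 1 ∨ u m = -1 := by
  obtain ⟨k, hk, h0⟩ := h
  by_cases hm : m = k
  · subst hm; exact Or.inr hk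
  · exact Or.inl (h0 m hm)

/-- The doubled centre is determined by any interior point of the image. -/
theorem ctr_of_open {φ : ℤ × ℤ → Fin 3 → ℤ} {s : Fin 3 → ℕ} {c : ℤ × ℤ}
    (hc : GoodCell φ s c) {p : ℝ × ℝ} (hp : p ∈ openCell c) (m : Fin 3) :
    ⌊interp φ p m⌋ + ⌈interp φ p m⌉ = ctr φ c m := by
  obtain ⟨h1, h2, h3, h4⟩ := id hp
  have hp' : p ∈ cell c := ⟨h1.le, h2.le, h3.le, h4.le⟩
  rw [interp_good hc hp' m]
  rw [floor_add_ceil (hc.1.cases m) (hc.2.1.cases m) (hc.2.2.1 m) (by linarith) (by linarith)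
    (by linarith) (by linarith)]
  simp only [ctr, dirU, dirV]
  ring

theorem noOverlap_of_good {φ : ℤ × ℤ → Fin 3 → ℤ} {s : Fin 3 → ℕ} {c d : ℤ × ℤ}
    (hc : GoodCell φ s c) (hd : GoodCell φ s d) (hne : ctr φ c ≠ ctr φ d) {p p' : ℝ × ℝ}
    (hp : p ∈ openCell c) (hp' : p' ∈ openCell d) : interp φ p ≠ interp φ p' := by
  intro h
  apply hne
  funext m
  rw [← ctr_of_open hc hp m, ← ctr_of_open hd hp' m, h]

/-- A point in the unit square of the surface around the doubled centre `ctr φ c` is the image of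
a point of the cell `c`. -/
theorem covers_of_good {φ : ℤ × ℤ → Fin 3 → ℤ} {s : Fin 3 → ℕ} {c : ℤ × ℤ}
    (hc : GoodCell φ s c) {q : Fin 3 → ℝ} (h1 : ∀ m, |2 * q m - ctr φ c m| ≤ 1)
    (h2 : ∀ m, dirU φ c m = 0 → dirV φ c m = 0 → q m = φ c m) :
    ∃ p ∈ cell c, interp φ p = q := by
  obtain ⟨k, hk, hk0⟩ := hc.1
  obtain ⟨l, hl, hl0⟩ := hc.2.1
  have hkl : k ≠ l := by
    rintro rfl
    rcases hc.2.2.1 k with h | h
    · rcases hk with h' | h' <;> rw [h'] at h <;> exact absurd h (by decide)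
    · rcases hl with h' | h' <;> rw [h'] at h <;> exact absurd h (by decide)
  have hctr : ∀ m, (ctr φ c m : ℝ) = 2 * φ c m + dirU φ c m + dirV φ c m := by
    intro m; simp only [ctr, dirU, dirV]; push_cast; ring
  have hvk : dirV φ c k = 0 := hl0 k hkl
  have hul : dirU φ c l = 0 := hk0 l (Ne.symm hkl)
  set x : ℝ := dirU φ c k * (q k - φ c k) with hx
  set y : ℝ := dirV φ c l * (q l - φ c l) with hy
  have hxb : 0 ≤ x ∧ x ≤ 1 := by
    have := h1 k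
    rw [hctr k, hvk, abs_le] at this
    rcases hk with h | h <;> rw [h] at this hx <;> push_cast at this hx <;> rw [hx] <;>
      constructor <;> linarith [this.1, this.2]
  have hyb : 0 ≤ y ∧ y ≤ 1 := by
    have := h1 l
    rw [hctr l, hul, abs_le] at this
    rcases hl with h | h <;> rw [h] at this hy <;> push_cast at this hy <;> rw [hy] <;>
      constructor <;> linarith [this.1, this.2]
  have hp : ((c.1 + x, c.2 + y) : ℝ × ℝ) ∈ cell c := by
    refine ⟨?_, ?_, ?_, ?_⟩ <;> simp <;> linarith [hxb.1, hxb.2, hyb.1, hyb.2]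
  refine ⟨_, hp, ?_⟩
  funext m
  rw [interp_good hc hp m]
  simp only [add_sub_cancel_left]
  by_cases hmk : m = k
  · subst hmk
    rw [hvk, hx]
    rcases hk with h | h <;> rw [h] <;> push_cast <;> ring
  · by_cases hml : m = l
    · subst hml
      rw [hul, hy]
      rcases hl with h | h <;> rw [h] <;> push_cast <;> ring
    · rw [hk0 m hmk, hl0 m hml, h2 m (hk0 m hmk) (hl0 m hml)]
      simp

/-- In a cell, a coordinate in which the doubled centre is even is constant. -/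
theorem even_ctr {φ : ℤ × ℤ → Fin 3 → ℤ} {s : Fin 3 → ℕ} {c : ℤ × ℤ}
    (hc : GoodCell φ s c) {m : Fin 3} (hu : dirU φ c m = 0) (hv : dirV φ c m = 0) :
    ctr φ c m = 2 * φ c m := by
  simp only [ctr, dirU, dirV] at *
  omega

/-- Every unit square of the surface of the box is the image of a cell. -/
def CoversSquares (φ : ℤ × ℤ → Fin 3 → ℤ) (s : Fin 3 → ℕ) (L : List (ℤ × ℤ)) : Prop :=
  ∀ m m' m'' : Fin 3, m ≠ m' → m ≠ m'' → m' < m'' → ∀ κ ∈ [0, s m], ∀ i < s m', ∀ j < s m'',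
    ∃ c ∈ L, ctr φ c m = 2 * (κ : ℤ) ∧ ctr φ c m' = 2 * (i : ℤ) + 1 ∧
      ctr φ c m'' = 2 * (j : ℤ) + 1

instance (φ : ℤ × ℤ → Fin 3 → ℤ) (s : Fin 3 → ℕ) (L : List (ℤ × ℤ)) :
    Decidable (CoversSquares φ s L) := by
  unfold CoversSquares; infer_instance

theorem exists_index {x : ℝ} {n : ℕ} (hn : 0 < n) (h0 : 0 ≤ x) (h1 : x ≤ n) :
    ∃ i < n, (i : ℝ) ≤ x ∧ x ≤ i + 1 := by
  rcases lt_or_eq_of_le h1 with h | h
  · refine ⟨⌊x⌋₊, (Nat.floor_lt h0).2 h, Nat.floor_le h0, (Nat.lt_floor_add_one x).le⟩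
  · refine ⟨n - 1, by omega, ?_, ?_⟩
    · rw [h]; exact_mod_cast Nat.sub_le n 1
    · rw [h]
      have : ((n - 1 : ℕ) : ℝ) + 1 = n := by
        rw [Nat.cast_sub hn]; simp
      linarith

theorem exists_other (m : Fin 3) : ∃ m' m'' : Fin 3, m ≠ m' ∧ m ≠ m'' ∧ m' < m'' ∧
    ∀ k, k = m ∨ k = m' ∨ k = m'' := by
  fin_cases m
  · exact ⟨1, 2, by decide, by decide, by decide, by decide⟩
  · exact ⟨0, 2, by decide, by decide, by decide, by decide⟩
  · exact ⟨0, 1, by decide, by decide, by decide, by decide⟩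

theorem covers_of_squares {φ : ℤ × ℤ → Fin 3 → ℤ} {s : Fin 3 → ℕ} {L : List (ℤ × ℤ)}
    (hs : ∀ m, 0 < s m) (hL : ∀ c ∈ L, GoodCell φ s c) (hc : CoversSquares φ s L)
    {q : Fin 3 → ℝ} (hq : q ∈ boxSurface s) : ∃ c ∈ L, ∃ p ∈ cell c, interp φ p = q := by
  obtain ⟨hb, m, hm⟩ := hq
  obtain ⟨m', m'', n1, n2, n3, hall⟩ := exists_other m
  obtain ⟨κ, hκ, hκq⟩ : ∃ κ ∈ [0, s m], q m = (κ : ℝ) := by
    rcases hm with h | h
    · exact ⟨0, by simp, by simpa using h⟩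
    · exact ⟨s m, by simp, h⟩
  obtain ⟨i, hi, hi0, hi1⟩ := exists_index (hs m') (hb m').1 (hb m').2
  obtain ⟨j, hj, hj0, hj1⟩ := exists_index (hs m'') (hb m'').1 (hb m'').2
  obtain ⟨c, hcL, c1, c2, c3⟩ := hc m m' m'' n1 n2 n3 κ hκ i hi j hj
  refine ⟨c, hcL, covers_of_good (hL c hcL) ?_ ?_⟩
  · intro k
    rcases hall k with h | h | h <;> subst h
    · rw [c1, hκq]; push_cast; simp
    · rw [c2, abs_le]; push_cast; constructor <;> linarith
    · rw [c3, abs_le]; push_cast; constructor <;> linarith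
  · intro k hu hv
    have he := even_ctr (hL c hcL) hu hv
    rcases hall k with h | h | h <;> subst h
    · rw [c1] at he
      have : (κ : ℤ) = φ c k := by omega
      rw [hκq, ← this]; simp
    · rw [c2] at he; omega
    · rw [c3] at he; omega

/-- Integer form of the condition on fold angles. -/
def AngleOK (φ : ℤ × ℤ → Fin 3 → ℤ) (v n : ℤ × ℤ) : Prop :=
  (∀ m, φ (v + n) m - φ v m = φ v m - φ (v - n) m) ∨
  (∀ m, φ (v + n) m - φ v m = 0 ∨ φ v m - φ (v - n) m = 0)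

instance (φ : ℤ × ℤ → Fin 3 → ℤ) (v n : ℤ × ℤ) : Decidable (AngleOK φ v n) := by
  unfold AngleOK; infer_instance

theorem dirAfter_interp (φ : ℤ × ℤ → Fin 3 → ℤ) (e : GridEdge) :
    dirAfter (interp φ) e = fun m => ((φ (e.start + e.normal) m - φ e.start m : ℤ) : ℝ) := by
  funext m
  simp [dirAfter, interp_lattice]

theorem dirBefore_interp (φ : ℤ × ℤ → Fin 3 → ℤ) (e : GridEdge) :
    dirBefore (interp φ) e = fun m => ((φ e.start m - φ (e.start - e.normal) m : ℤ) : ℝ) := by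
  funext m
  simp [dirBefore, interp_lattice]

theorem angle_of_ok {φ : ℤ × ℤ → Fin 3 → ℤ} {e : GridEdge} (h : AngleOK φ e.start e.normal) :
    dirAfter (interp φ) e = dirBefore (interp φ) e ∨
      dirAfter (interp φ) e ⬝ᵥ dirBefore (interp φ) e = 0 := by
  rw [dirAfter_interp, dirBefore_interp]
  rcases h with h | h
  · left; funext m; rw [h m]
  · right; exact dot_perp h

/-- Integer form of being folded along an edge. -/
def Bent (φ : ℤ × ℤ → Fin 3 → ℤ) (v n : ℤ × ℤ) : Prop :=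
  ¬ ∀ m, φ (v + n) m - φ v m = φ v m - φ (v - n) m

instance (φ : ℤ × ℤ → Fin 3 → ℤ) (v n : ℤ × ℤ) : Decidable (Bent φ v n) := by
  unfold Bent; infer_instance

theorem isCrease_interp {P : Finset (ℤ × ℤ)} {φ : ℤ × ℤ → Fin 3 → ℤ} {e : GridEdge} :
    IsCrease P (interp φ) e ↔ IsInterior P e ∧ Bent φ e.start e.normal := by
  unfold IsCrease Bent
  rw [dirAfter_interp, dirBefore_interp]
  refine and_congr_right fun _ => not_congr ?_
  constructor
  · intro h m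
    exact_mod_cast congrFun h m
  · intro h
    funext m; rw [h m]

/-- The finite conditions on a list of cells and a vertex map give a folding. -/
theorem isFolding_of_checks {φ : ℤ × ℤ → Fin 3 → ℤ} {s : Fin 3 → ℕ} {L : List (ℤ × ℤ)}
    (hs : ∀ m, 0 < s m) (hL : ∀ c ∈ L, GoodCell φ s c) (hcov : CoversSquares φ s L)
    (hinj : ∀ c ∈ L, ∀ d ∈ L, c ≠ d → ctr φ c ≠ ctr φ d)
    (hang : ∀ v ∈ L, ∀ n ∈ [((1, 0) : ℤ × ℤ), (0, 1)], v - n ∈ L → AngleOK φ v n) :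
    IsFolding L.toFinset s (interp φ) where
  rigid c hc := rigid_of_good (hL c (List.mem_toFinset.1 hc))
  angle e he := by
    apply angle_of_ok
    refine hang _ (List.mem_toFinset.1 he.1) _ ?_ (List.mem_toFinset.1 he.2)
    unfold GridEdge.normal
    split <;> simp
  maps p hp := by
    obtain ⟨c, hc, hpc⟩ := hp
    exact maps_of_good (hL c (List.mem_toFinset.1 hc)) hpc
  covers q hq := by
    obtain ⟨c, hc, p, hp, hpq⟩ := covers_of_squares hs hL hcov hq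
    exact ⟨p, ⟨c, List.mem_toFinset.2 hc, hp⟩, hpq⟩
  noOverlap c hc d hd hne p hp p' hp' :=
    noOverlap_of_good (hL c (List.mem_toFinset.1 hc)) (hL d (List.mem_toFinset.1 hd))
      (hinj c (List.mem_toFinset.1 hc) d (List.mem_toFinset.1 hd) hne) hp hp'

end Pool.Agent.Lib_helper32.BoxNet
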